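import Pool.Agent.MP_c1891a_nt.G43.Spec
import Pool.Agent.MP_c1891a_nt.H19.NormL

/-
The norm of a Laurent polynomial in any number of variables.
-/

namespace Pool.Agent.MP_c1891a_nt.G43

open Finset Module H43

/-- a Laurent polynomial as an element of the group algebra. -/
noncomputable def normNP {Λ ι : Type} (I : Finset ι) (c : ι → ℂ) (m : ι → Λ) :
    AddMonoidAlgebra ℂ Λ := ∑ i ∈ I, AddMonoidAlgebra.single (m i) (c i)

theorem normN_map {Λ ι : Type} [AddCommGroup Λ] (θ : ℂ →+* ℂ) (I : Finset ι) (c : ι → ℂ)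
    (m : ι → Λ) :
    AddMonoidAlgebra.mapRingHom Λ θ (normNP I c m) = normNP I (fun i => θ (c i)) m := by
  simp only [normNP, map_sum, AddMonoidAlgebra.mapRingHom_single]

theorem normN_lift {Λ ι A : Type} [AddCommGroup Λ] [CommRing A] [Algebra ℂ A] (I : Finset ι)
    (c : ι → ℂ) (m : ι → Λ) (x : AddChar Λ A) :
    AddMonoidAlgebra.lift ℂ A Λ x.toMonoidHom (normNP I c m) =
      ∑ i ∈ I, algebraMap ℂ A (c i) * x (m i) := by
  simp only [normNP, map_sum, AddMonoidAlgebra.lift_single, Algebra.smul_def]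
  rfl

theorem normN_mem {Λ ι : Type} [AddCommGroup Λ] (I : Finset ι) (c : ι → ℂ) (m : ι → Λ)
    (hc : ∀ i ∈ I, IsIntegral ℤ (c i)) :
    normNP I c m ∈ (AddMonoidAlgebra.mapRingHom Λ (integralClosure ℤ ℂ).val.toRingHom).range := by
  refine Subring.sum_mem _ fun i hi => ⟨AddMonoidAlgebra.single (m i) ⟨c i, hc i hi⟩, ?_⟩
  rw [AddMonoidAlgebra.mapRingHom_single]
  rfl

theorem normN_tw {Λ : Type} [AddCommGroup Λ] (S : Sys Λ) (θ : ℂ ≃+* ℂ) (k r : ℕ)
    (h : ∀ (F : Type) [Field F] [Algebra ℂ F] (x : AddChar Λ F), S.Zero x → ∀ n, TD x n →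
      n + k ≤ r) (F : Type) [Field F] [inst : Algebra ℂ F] (x : AddChar Λ F)
    (hz : (S.wc fun i => θ (S.c i)).Zero x) (n : ℕ) (ht : TD x n) : n + k ≤ r := by
  obtain ⟨l, hl⟩ := ht
  refine @h F _ ((algebraMap ℂ F).comp θ.toRingHom).toAlgebra x hz n ⟨l, ?_⟩
  exact @AlgebraicIndependent.of_ringHom_of_comp_eq (Fin n) ℂ F (fun k => x (l k)) _ _
    ((algebraMap ℂ F).comp θ.toRingHom).toAlgebra ℂ F (ℂ →+* ℂ) (F →+* F) _ _ inst _ _ _ _
    θ.toRingHom (RingHom.id F) hl θ.injective rfl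

/-- the character with an extra variable. -/
noncomputable def normNX {Λ F : Type} [AddCommGroup Λ] [Field F] (x : AddChar Λ F)
    (u : Λ →ₗ[ℤ] ℤ) : AddChar Λ (AddMonoidAlgebra F ℤ) where
  toFun l := AddMonoidAlgebra.single (u l) (x l)
  map_zero_eq_one' := by
    rw [map_zero, AddChar.map_zero_eq_one]
    rfl
  map_add_eq_mul' a b := by
    rw [map_add, AddChar.map_add_eq_mul, AddMonoidAlgebra.single_mul_single]

theorem normN_zero {Λ ι F : Type} [AddCommGroup Λ] [Field F] [Algebra ℂ F] (I : Finset ι)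
    (c : ι → ℂ) (m : ι → Λ) (x : AddChar Λ F) :
    (poly I c m).Zero x ↔ ∑ i ∈ I, algebraMap ℂ F (c i) * x (m i) = 0 := by
  classical
  have h : ∀ j, (poly I c m).cs x j = ∑ i ∈ I, algebraMap ℂ F (c i) * x (m i) := fun j =>
    sum_congr (@filter_true_of_mem _ _ (fun _ => Classical.propDecidable _) _ fun _ _ => rfl)
      fun _ _ => rfl
  exact ⟨fun H => h () ▸ H (), fun H j => (h j).trans H⟩

theorem normN_zero' {Λ ι F : Type} [AddCommGroup Λ] [Field F] [Algebra ℂ F] (I : Finset ι)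
    (c : ι → ℂ) (m : ι → Λ) (x : AddChar Λ F) (u : Λ →ₗ[ℤ] ℤ) :
    ((poly I c m).ref u).Zero x ↔
      ∑ i ∈ I, algebraMap ℂ (AddMonoidAlgebra F ℤ) (c i) * normNX x u (m i) = 0 := by
  classical
  have h : ∀ j : Unit × ℤ, ((poly I c m).ref u).cs x j =
      (∑ i ∈ I, algebraMap ℂ (AddMonoidAlgebra F ℤ) (c i) * normNX x u (m i)).coeff j.2 := by
    intro j
    rw [AddMonoidAlgebra.coeff_sum, Finsupp.finsetSum_apply, Sys.cs, sum_filter]
    refine sum_congr rfl fun i _ => ?_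
    have e : algebraMap ℂ (AddMonoidAlgebra F ℤ) (c i) * normNX x u (m i) =
        AddMonoidAlgebra.single (u (m i)) (algebraMap ℂ F (c i) * x (m i)) := by
      rw [← Algebra.smul_def, ← Algebra.smul_def]
      exact AddMonoidAlgebra.smul_single _ _ _
    rw [e, AddMonoidAlgebra.coeff_single, Finsupp.single_apply]
    exact @if_congr _ _ _ (Classical.propDecidable _) _ _ _ _ _
      ⟨fun H => congrArg Prod.snd H, fun H => Prod.ext rfl H⟩ rfl rfl
  refine ⟨fun H => AddMonoidAlgebra.ext (Finsupp.ext fun t => ?_), fun H j => ?_⟩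
  · exact (h ((), t)).symm.trans (H ((), t))
  · rw [h, H]
    rfl

theorem sNormN : SNormN := by
  intro Λ ι K _ _ _ _ _ ι₀ I c m hc h0
  have hτ : ∀ τ : K →+* ℂ, (poly I (fun i => τ (c i)) m).Full := by
    intro τ
    obtain ⟨θ, hθ⟩ := ext_aut ι₀ τ
    have e : (fun i => τ (c i)) = fun i => θ (ι₀ (c i)) := funext fun i => (hθ _).symm
    rw [e]
    exact ⟨normN_tw _ θ 1 _ h0.1, fun u hu => normN_tw _ θ 2 _ (h0.2 u hu)⟩
  let NP : AddMonoidAlgebra ℂ Λ := ∏ τ : K →+* ℂ, normNP I (fun i => τ (c i)) m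
  have hint : ∀ μ, IsIntegral ℤ (NP.coeff μ) := by
    intro μ
    obtain ⟨Q, hQ⟩ : NP ∈ (AddMonoidAlgebra.mapRingHom Λ
        (integralClosure ℤ ℂ).val.toRingHom).range :=
      Subring.prod_mem _ fun τ _ => normN_mem I _ m fun ν hν => (int_map τ).2 (hc ν hν)
    rw [← hQ, AddMonoidAlgebra.coeff_mapRingHom]
    exact (Q.coeff μ).2
  have hfix : ∀ (θ : ℂ ≃+* ℂ) μ, θ (NP.coeff μ) = NP.coeff μ := by
    intro θ μ
    have hb : Function.Bijective fun τ : K →+* ℂ => θ.toRingHom.comp τ :=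
      Finite.injective_iff_bijective.1 fun τ τ' e =>
        RingHom.ext fun r => θ.injective (RingHom.congr_fun e r)
    have h1 : AddMonoidAlgebra.mapRingHom Λ θ.toRingHom NP = NP := by
      rw [map_prod]
      refine Fintype.prod_bijective _ hb _ _ fun τ => ?_
      rw [normN_map]
      rfl
    have h2 := AddMonoidAlgebra.coeff_mapRingHom θ.toRingHom NP μ
    rw [h1] at h2
    exact h2.symm
  choose z hz using fun μ => normL_fix (hint μ) fun θ => hfix θ μ
  have hz' : ∀ μ, (z μ : ℂ) = NP.coeff μ := hz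
  have key : ∀ (A : Type) [CommRing A] [Algebra ℂ A] (x : AddChar Λ A),
      ∑ μ ∈ NP.coeff.support, algebraMap ℂ A (z μ : ℂ) * x (id μ) =
        ∏ τ : K →+* ℂ, ∑ i ∈ I, algebraMap ℂ A (τ (c i)) * x (m i) := by
    intro A _ _ x
    rw [← prod_congr rfl fun (τ : K →+* ℂ) _ => normN_lift I (fun i => τ (c i)) m x, ← map_prod,
      AddMonoidAlgebra.lift_apply']
    exact sum_congr rfl fun μ _ => by rw [hz']; rfl
  refine ⟨NP.coeff.support, z, fun μ hμ e => Finsupp.mem_support_iff.1 hμ ?_,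
    ⟨fun F _ _ x hx => ?_, fun u hu F _ _ x hx => ?_⟩, fun χ => key ℂ χ⟩
  · rw [← hz', e, Int.cast_zero]
  · rw [normN_zero, key] at hx
    obtain ⟨τ, _, h3⟩ := prod_eq_zero_iff.1 hx
    exact (hτ τ).1 F x ((normN_zero _ _ _ _).2 h3)
  · rw [normN_zero', key] at hx
    obtain ⟨τ, _, h3⟩ := prod_eq_zero_iff.1 hx
    exact (hτ τ).2 u hu F x ((normN_zero' _ _ _ _ _).2 h3)

end Pool.Agent.MP_c1891a_nt.G43
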